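import Pool.Agent.C4F.StmtsM
import Pool.Agent.Helper32_Poly.Comp
import Pool.Agent.Helper32_Poly.Morphism

/-!
# Squad C4F, rows PGR and PGB

Generators as machines.
-/

set_option autoImplicit false

namespace Pool.Agent.C4F.H49

open Pool.Agent.Helper53_CookLevin (PGen pgen_computable)
open Pool.Agent.Helper32_Poly
open Turing

theorem pgr : PgrStmt := by
  intro F hF
  obtain ⟨c⟩ := pgen_computable (fun ρ : Fin 1 → List Lt => F (ρ 0)) hF
  exact ⟨c.toTM2ComputableAux, c.time, fun w => ⟨c.outputsFun w⟩⟩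

theorem pgb : PgbStmt := by
  intro F hF
  obtain ⟨c⟩ := pgen_computable (fun ρ : Fin 1 → List Lt => F (ρ 0)) hF
  let h : Lt → List Bool := fun a => [decide (a = Lt.pos)]
  let m := morphComputable (id : List Lt → List Lt) (id : List Bool → List Bool)
    (fun w => w.flatMap h) [] h (fun _ => rfl)
  obtain ⟨d⟩ := TM2ComputableInPolyTime.comp c m
  refine ⟨d.toTM2ComputableAux, d.time, fun w => ?_⟩
  have e : (F w).map (fun c => decide (c = Lt.pos)) = (F w).flatMap h :=
    List.map_eq_flatMap
  rw [e]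
  exact ⟨d.outputsFun w⟩

end Pool.Agent.C4F.H49
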